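import Mathlib

namespace Pool.Agent.Results.MP_402458_gt.No

open Set Metric Filter Topology Real
open scoped ContDiff

/-- A smooth closed embedded curve in the Euclidean plane `ℂ`: a smooth `2π`-periodic immersion
that is injective modulo `2π`. The submanifold is `N = range γ`, with `T_{γ t} N = ℝ γ'(t)`. -/
structure IsCurve (γ : ℝ → ℂ) : Prop where
  smooth : ContDiff ℝ ∞ γ
  periodic : Function.Periodic γ (2 * π)
  regular : ∀ t, deriv γ t ≠ 0
  inj : ∀ s t, γ s = γ t → ∃ k : ℤ, s = t + k * (2 * π)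

/-- The unit normal bundle `S(ν)`, as pairs (base point, vector). -/
def UnitNormal (γ : ℝ → ℂ) : Set (ℂ × ℂ) :=
  {x | ∃ t, x.1 = γ t ∧ ‖x.2‖ = 1 ∧ inner ℝ x.2 (deriv γ t) = 0}

/-- The times `s > 0` at which the normal geodesic `p + s v` realises the distance to `N`. -/
def Times (γ : ℝ → ℂ) (x : ℂ × ℂ) : Set ℝ :=
  {s | 0 < s ∧ infDist (x.1 + s • x.2) (range γ) = s}

/-- The tangent cut locus `{ρ(v) v : v ∈ S(ν), ρ(v) < ∞}`, with `ρ(v) = sup (Times γ v)`. -/
def TanCut (γ : ℝ → ℂ) : Set (ℂ × ℂ) :=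
  {y | ∃ x ∈ UnitNormal γ, ∃ ρ : ℝ, IsLUB (Times γ x) ρ ∧ y = (x.1, ρ • x.2)}

/-- The exponential map of the Euclidean plane. -/
def expMap (y : ℂ × ℂ) : ℂ := y.1 + y.2

/-- The cut locus. -/
def Cut (γ : ℝ → ℂ) : Set ℂ := expMap '' TanCut γ

/-- `s ↦ p + s v` on `[0, l]` is an `N`-segment ending at `q`. -/
def IsSegment (γ : ℝ → ℂ) (p v : ℂ) (l : ℝ) (q : ℂ) : Prop :=
  p ∈ range γ ∧ ‖v‖ = 1 ∧ 0 ≤ l ∧ p + l • v = q ∧ infDist q (range γ) = l

/-- The separating set: points joined to `N` by two distinct `N`-segments. -/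
def Sep (γ : ℝ → ℂ) : Set ℂ :=
  {q | ∃ p v p' v' l, IsSegment γ p v l q ∧ IsSegment γ p' v' l q ∧
    ∃ s ∈ Icc (0 : ℝ) l, p + s • v ≠ p' + s • v'}

/-- The tangent separating set. -/
def TanSep (γ : ℝ → ℂ) : Set (ℂ × ℂ) := {y ∈ TanCut γ | expMap y ∈ Sep γ}

noncomputable def psi (x : ℝ) : ℝ := (1 - smoothTransition (x - 1)) * (1 - x + x ^ 2)

lemma psi_nonneg (x : ℝ) : 0 ≤ psi x :=
  mul_nonneg (sub_nonneg.2 (smoothTransition.le_one _)) (by nlinarith [sq_nonneg (x - 1 / 2)])

lemma psi_small {x : ℝ} (h : x ≤ 1) : psi x = 1 - x + x ^ 2 := by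
  simp [psi, smoothTransition.zero_of_nonpos (sub_nonpos.2 h)]

lemma psi_big {x : ℝ} (h : 2 ≤ x) : psi x = 0 := by
  simp [psi, smoothTransition.one_of_one_le (show 1 ≤ x - 1 by linarith)]

lemma psi_gt {x : ℝ} (h : 0 < x) : 1 - x < psi x := by
  rcases le_or_gt x 1 with a | a
  · rw [psi_small a]; nlinarith
  · linarith [psi_nonneg x]

noncomputable def tt (n : ℕ) : ℝ := (1 / 2) ^ n
noncomputable def eta (n : ℕ) : ℝ := tt n ^ 2 / 256
noncomputable def bump (n : ℕ) (t : ℝ) : ℝ := psi ((1 - cos (t - tt n)) / eta n)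

lemma tt_pos (n : ℕ) : 0 < tt n := by unfold tt; positivity
lemma tt_le (n : ℕ) : tt n ≤ 1 := pow_le_one₀ (by norm_num) (by norm_num)
lemma eta_pos (n : ℕ) : 0 < eta n := by have := tt_pos n; unfold eta; positivity

lemma cos_bd {x : ℝ} (h : |x| ≤ π) : x ^ 2 / 8 ≤ 1 - cos x := by
  have := cos_le_one_sub_mul_cos_sq h
  have h2 : 1 / 8 ≤ 2 / π ^ 2 := by
    rw [div_le_div_iff₀ (by norm_num) (by positivity)]
    nlinarith [pi_lt_four, pi_pos]
  nlinarith [sq_nonneg x]

lemma bump_zero {n : ℕ} {t : ℝ} (h : tt n / 4 ≤ |t - tt n|) (h' : |t - tt n| ≤ π) :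
    bump n t = 0 := by
  refine psi_big ?_
  rw [le_div_iff₀ (eta_pos n)]
  have := cos_bd h'
  have h2 := pow_le_pow_left₀ (by have := tt_pos n; positivity) h 2
  rw [sq_abs] at h2
  unfold eta
  nlinarith

lemma bump_smooth (n : ℕ) : ContDiff ℝ ∞ (bump n) := by
  unfold bump psi
  have := smoothTransition.contDiff (n := ⊤)
  fun_prop (disch := exact (eta_pos n).ne')

lemma bump_per (n : ℕ) : Function.Periodic (bump n) (2 * π) := fun t => by
  simp only [bump]; rw [add_sub_right_comm, cos_add_two_pi]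

lemma bump_bd (n k : ℕ) : ∃ C, 0 ≤ C ∧ ∀ t, ‖iteratedFDeriv ℝ k (bump n) t‖ ≤ C := by
  have hp : Function.Periodic (iteratedFDeriv ℝ k (bump n)) (2 * π) := fun t => by
    rw [← iteratedFDeriv_comp_add_right]
    congr 1
    exact funext (bump_per n)
  have := hp.isBounded_of_continuous (by positivity)
    ((bump_smooth n).continuous_iteratedFDeriv (by exact_mod_cast le_top))
  obtain ⟨C, hC⟩ := this.exists_norm_le
  exact ⟨C, (norm_nonneg _).trans (hC _ ⟨0, rfl⟩), fun t => hC _ ⟨t, rfl⟩⟩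

lemma exists_h : ∃ (e : ℕ → ℝ) (h : ℝ → ℝ), (∀ n, 0 < e n) ∧ (∀ n, e n ≤ eta n * (tt n / 2)) ∧
    ContDiff ℝ ∞ h ∧ Function.Periodic h (2 * π) ∧ (∀ t, |h t - 1| ≤ 1 / 8) ∧
    (∀ t, |deriv (deriv h) t| ≤ 1 / 8) ∧ (∀ n t, 1 + e n * bump n t ≤ h t) ∧
    (∀ n t, (∀ m ≠ n, bump m t = 0) → h t = 1 + e n * bump n t) := by
  choose C C0 hC using bump_bd
  let D : ℕ → ℝ := fun n => 1 + ∑ k ∈ Finset.range (n + 3), C n k
  have D0 : ∀ n, 0 < D n := fun n =>
    add_pos_of_pos_of_nonneg one_pos (Finset.sum_nonneg fun k _ => C0 n k)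
  let e : ℕ → ℝ := fun n => min (eta n * (tt n / 2)) (tt n / 16 / D n)
  have e0 : ∀ n, 0 < e n := fun n => lt_min (mul_pos (eta_pos n) (half_pos (tt_pos n)))
    (div_pos (div_pos (tt_pos n) (by norm_num)) (D0 n))
  have eC : ∀ n k, k < n + 3 → e n * C n k ≤ tt n / 16 := by
    intro n k hk
    have h1 : C n k ≤ D n := (Finset.single_le_sum (fun k _ => C0 n k)
      (Finset.mem_range.2 hk)).trans (by simp [D])
    calc e n * C n k ≤ tt n / 16 / D n * D n :=
          mul_le_mul (min_le_right _ _) h1 (C0 n k) (div_pos (div_pos (tt_pos n)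
            (by norm_num)) (D0 n)).le
      _ = _ := div_mul_cancel₀ _ (D0 n).ne'
  have hg : HasSum (fun n => tt n / 16) (1 / 8) := by
    have := hasSum_geometric_two.div_const 16
    rwa [show (2 : ℝ) / 16 = 1 / 8 by norm_num] at this
  let f : ℕ → ℝ → ℝ := fun n t => e n * bump n t
  have hf : ∀ n, ContDiff ℝ ((⊤ : ℕ∞) : WithTop ℕ∞) (f n) := fun n =>
    contDiff_const.mul (bump_smooth n)
  have hv : ∀ k : ℕ, (k : ℕ∞) ≤ ⊤ → Summable fun n => e n * C n k := by
    intro k _
    refine Summable.of_norm_bounded_eventually_nat hg.summable ?_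
    filter_upwards [eventually_ge_atTop k] with n hn
    rw [Real.norm_of_nonneg (mul_nonneg (e0 n).le (C0 n k))]
    exact eC n k (by omega)
  have hb : ∀ (k n : ℕ) (x : ℝ), (k : ℕ∞) ≤ ⊤ → ‖iteratedFDeriv ℝ k (f n) x‖ ≤ e n * C n k := by
    intro k n x _
    have : f n = e n • bump n := rfl
    rw [this, iteratedFDeriv_const_smul_apply
      ((bump_smooth n).of_le (by exact_mod_cast le_top)).contDiffAt, norm_smul,
      Real.norm_of_nonneg (e0 n).le]
    exact mul_le_mul_of_nonneg_left (hC n k x) (e0 n).le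
  have key : ∀ k < 3, ∀ t, ‖iteratedFDeriv ℝ k (fun y => ∑' n, f n y) t‖ ≤ 1 / 8 := by
    intro k hk t
    rw [iteratedFDeriv_tsum_apply hf hv hb le_top]
    exact tsum_of_norm_bounded hg fun n => (hb k n t le_top).trans (eC n k (by omega))
  have hs : ∀ t, Summable fun n => f n t := fun t =>
    Summable.of_norm_bounded (hv 0 le_top) fun n => by simpa using hb 0 n t le_top
  refine ⟨e, fun t => 1 + ∑' n, f n t, e0, fun n => min_le_left _ _,
    contDiff_const.add (contDiff_tsum hf hv hb), fun t => ?_, fun t => ?_, fun t => ?_,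
    fun n t => ?_, fun n t h => ?_⟩
  · simp only [f, bump_per _ t]
  · simpa using key 0 (by norm_num) t
  · have := key 2 (by norm_num) t
    rw [norm_iteratedFDeriv_eq_norm_iteratedDeriv, iteratedDeriv_succ, iteratedDeriv_one] at this
    simpa [deriv_const_add'] using this
  · exact add_le_add_right ((hs t).le_tsum n fun m _ => mul_nonneg (e0 m).le (psi_nonneg _)) _
  · show 1 + ∑' m, f m t = _
    rw [tsum_eq_single n fun m hm => show f m t = 0 by simp only [f, h m hm, mul_zero]]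

noncomputable def u (t : ℝ) : ℂ := Complex.exp (t * Complex.I)

lemma norm_u (t : ℝ) : ‖u t‖ = 1 := Complex.norm_exp_ofReal_mul_I t

lemma u_mul (s t : ℝ) : u s = u (s - t) * u t := by
  simp only [u, ← Complex.exp_add]; congr 1; push_cast; ring

lemma u_re (t : ℝ) : (u t).re = cos t := Complex.exp_ofReal_mul_I_re t
lemma u_im (t : ℝ) : (u t).im = sin t := Complex.exp_ofReal_mul_I_im t

lemma u_deriv (t : ℝ) : HasDerivAt u (Complex.I * u t) t := by
  have := (((hasDerivAt_id t).ofReal_comp).mul_const Complex.I).cexp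
  exact this.congr_deriv (by simp [u, mul_comm])

noncomputable def gam (h : ℝ → ℝ) (t : ℝ) : ℂ :=
  ((h t : ℂ) + ((deriv h t : ℝ) : ℂ) * Complex.I) * u t

lemma gam_deriv {h : ℝ → ℝ} (hh : ContDiff ℝ ∞ h) (t : ℝ) :
    HasDerivAt (gam h) ((h t + deriv (deriv h) t : ℝ) * (Complex.I * u t)) t := by
  have h1 := (hh.differentiable (by simp) t).hasDerivAt.ofReal_comp
  have h2 := ((hh.deriv' (n := ∞)).differentiable (by simp) t).hasDerivAt.ofReal_comp
  refine ((h1.add (h2.mul_const Complex.I)).mul (u_deriv t)).congr_deriv ?_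
  simp only [Pi.add_apply]
  push_cast
  linear_combination (((deriv h t : ℝ) : ℂ) * u t) * Complex.I_mul_I

lemma gam_sub (h : ℝ → ℝ) (a s t : ℝ) : gam h t - a * u s =
    ((h t - a * cos (t - s) : ℝ) + (deriv h t + a * sin (t - s) : ℝ) * Complex.I) * u t := by
  rw [u_mul s t, gam, show u (s - t) = cos (t - s) - sin (t - s) * Complex.I by
    rw [← neg_sub s t, cos_neg, sin_neg]
    apply Complex.ext <;> simp [u_re, u_im, -Complex.ofReal_cos, -Complex.ofReal_sin]]
  push_cast
  ring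

lemma gam_lower (h : ℝ → ℝ) (a s t : ℝ) : h t - a * cos (t - s) ≤ ‖gam h t - a * u s‖ := by
  rw [gam_sub, norm_mul, norm_u, mul_one]
  refine le_trans (le_of_eq ?_) (Complex.re_le_norm _)
  simp [-Complex.ofReal_cos, -Complex.ofReal_sin]

lemma gam_min {h : ℝ → ℝ} (hh : ContDiff ℝ ∞ h) {a s t : ℝ}
    (hm : ∀ r, h t - a * cos (t - s) ≤ h r - a * cos (r - s)) :
    gam h t - a * u s = (h t - a * cos (t - s) : ℝ) * u t := by
  have h1 := (hh.differentiable (by simp) t).hasDerivAt.sub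
    (((hasDerivAt_id t).sub_const s).cos.const_mul a)
  have h2 := IsLocalMin.hasDerivAt_eq_zero (Eventually.of_forall hm) h1
  rw [gam_sub, show deriv h t + a * sin (t - s) = 0 by simpa using h2]
  simp

lemma dist_min {h : ℝ → ℝ} (hh : ContDiff ℝ ∞ h) {a s t : ℝ}
    (hm : ∀ r, h t - a * cos (t - s) ≤ h r - a * cos (r - s)) (h0 : 0 ≤ h t - a * cos (t - s)) :
    infDist (a * u s) (range (gam h)) = h t - a * cos (t - s) := by
  apply le_antisymm
  · refine (infDist_le_dist_of_mem (mem_range_self t)).trans_eq ?_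
    rw [dist_comm, dist_eq_norm, gam_min hh hm, norm_mul, norm_u, mul_one, Complex.norm_real,
      Real.norm_of_nonneg h0]
  · refine (le_infDist (range_nonempty _)).2 ?_
    rintro _ ⟨r, rfl⟩
    rw [dist_comm, dist_eq_norm]
    exact (hm r).trans (gam_lower h a s r)

lemma u_per (t : ℝ) (k : ℤ) : u (t + k * (2 * π)) = u t := by
  apply Complex.ext
  · rw [u_re, u_re, cos_add_int_mul_two_pi]
  · rw [u_im, u_im, sin_add_int_mul_two_pi]

lemma gam_per {h : ℝ → ℝ} (hp : Function.Periodic h (2 * π)) :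
    Function.Periodic (gam h) (2 * π) := fun t => by
  have h1 : deriv h (t + 2 * π) = deriv h t := by
    rw [← deriv_comp_add_const]; congr 1; exact funext hp
  have := u_per t 1
  simp only [Int.cast_one, one_mul] at this
  simp only [gam, hp t, h1, this]

lemma isCurve {h : ℝ → ℝ} (hh : ContDiff ℝ ∞ h) (hp : Function.Periodic h (2 * π))
    (h0 : ∀ t, |h t - 1| ≤ 1 / 8) (h2 : ∀ t, |deriv (deriv h) t| ≤ 1 / 8) : IsCurve (gam h) := by
  refine ⟨?_, gam_per hp, fun t => ?_, fun s t hst => ?_⟩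
  · have a := Complex.ofRealCLM.contDiff.comp hh
    have b := Complex.ofRealCLM.contDiff.comp (hh.deriv' (n := ∞))
    have c := (Complex.ofRealCLM.contDiff (n := ∞)).mul (contDiff_const (c := Complex.I))
    exact (a.add (b.mul contDiff_const)).mul c.cexp
  · rw [(gam_deriv hh t).deriv]
    refine mul_ne_zero (Complex.ofReal_ne_zero.2 ?_) (mul_ne_zero Complex.I_ne_zero ?_)
    · linarith [abs_le.1 (h0 t), abs_le.1 (h2 t)]
    · rw [← norm_ne_zero_iff, norm_u]; exact one_ne_zero
  · let k : ℤ := round ((s - t) / (2 * π))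
    refine ⟨k, ?_⟩
    set r := s - k * (2 * π) with hr
    have e1 : gam h r = gam h t := by rw [hr, (gam_per hp).sub_int_mul_eq, hst]
    have e2 : |r - t| ≤ π := by
      have := abs_sub_round ((s - t) / (2 * π))
      have e : r - t = ((s - t) / (2 * π) - k) * (2 * π) := by field_simp; ring
      rw [e, abs_mul, abs_of_pos (show 0 < 2 * π by positivity)]
      nlinarith [pi_pos]
    have e3 := convex_univ.norm_image_sub_le_of_norm_hasDerivWithin_le (C := 1 / 4)
      (fun x _ => ((gam_deriv hh x).sub (u_deriv x)).hasDerivWithinAt) (fun x _ => by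
        rw [← sub_one_mul, norm_mul, norm_mul, norm_u, Complex.norm_I, ← Complex.ofReal_one,
          ← Complex.ofReal_sub, Complex.norm_real, Real.norm_eq_abs, mul_one, mul_one, abs_le]
        constructor <;> linarith [abs_le.1 (h0 x), abs_le.1 (h2 x)]) (mem_univ t) (mem_univ r)
    simp only [Pi.sub_apply, e1, sub_sub_sub_cancel_left] at e3
    rw [u_mul r t, ← one_sub_mul, norm_mul, norm_u, mul_one, Real.norm_eq_abs] at e3
    have e4 := pow_le_pow_left₀ (norm_nonneg _) e3 2
    rw [Complex.sq_norm, Complex.normSq_apply, mul_pow, sq_abs] at e4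
    simp only [Complex.sub_re, Complex.sub_im, u_re, u_im, Complex.one_re, Complex.one_im] at e4
    have e5 := cos_bd e2
    have e6 : (r - t) ^ 2 = 0 := by
      nlinarith [sin_sq_add_cos_sq (r - t), sq_nonneg (r - t)]
    have := pow_eq_zero_iff two_ne_zero |>.1 e6
    linarith

lemma normal {h : ℝ → ℝ} (hh : ContDiff ℝ ∞ h) (t : ℝ) : (gam h t, -u t) ∈ UnitNormal (gam h) := by
  refine ⟨t, rfl, by simp [norm_u], ?_⟩
  rw [(gam_deriv hh t).deriv, Complex.inner]
  simp [-Complex.ofReal_add]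
  ring

/-- cut time along the inner normal at `s`. -/
lemma cut {h : ℝ → ℝ} (hh : ContDiff ℝ ∞ h) (hp : Function.Periodic h (2 * π))
    (h1 : ∀ t, 1 ≤ h t) {a s : ℝ} (ha : a < 1)
    (hm : ∀ r, h s - a ≤ h r - a * cos (r - s))
    (hc : ∀ b < a, ∃ r, h r - b * cos (r - s) < h s - b) :
    gam h s = h s * u s ∧ infDist (a * u s) (range (gam h)) = h s - a ∧
      (gam h s, ((h s - a) • -u s)) ∈ TanCut (gam h) := by
  have hm' : ∀ r, h s - a * cos (s - s) ≤ h r - a * cos (r - s) := by simpa using hm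
  have e1 : gam h s = h s * u s := by
    have := gam_min hh hm'
    simp only [sub_self, cos_zero, mul_one] at this
    push_cast at this
    linear_combination this
  have e2 := dist_min hh hm' (by simp; linarith [h1 s])
  simp only [sub_self, cos_zero, mul_one] at e2
  have pt : ∀ x : ℝ, gam h s + x • -u s = (h s - x : ℝ) * u s := fun x => by
    rw [e1, Complex.real_smul]; push_cast; ring
  refine ⟨e1, e2, _, normal hh s, _, IsGreatest.isLUB ⟨⟨by linarith [h1 s], ?_⟩, ?_⟩, rfl⟩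
  · rw [pt, sub_sub_cancel, e2]
  · rintro x ⟨x0, hx⟩
    by_contra hlt
    push Not at hlt
    obtain ⟨r, hr⟩ := hc (h s - x) (by linarith)
    simp only [pt] at hx
    have hcont : Continuous fun t => h t - (h s - x) * cos (t - s) := by
      have := hh.continuous; fun_prop
    obtain ⟨t, -, ht⟩ := (isCompact_Icc (a := 0) (b := 2 * π)).exists_isMinOn
      ⟨0, le_rfl, by positivity⟩ hcont.continuousOn
    have hper : Function.Periodic (fun t => h t - (h s - x) * cos (t - s)) (2 * π) := fun t => by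
      simp only [hp t]; rw [add_sub_right_comm, cos_add_two_pi]
    have ht' : ∀ r, h t - (h s - x) * cos (t - s) ≤ h r - (h s - x) * cos (r - s) := by
      intro r
      obtain ⟨y, hy, e⟩ := hper.exists_mem_Ico₀ (by positivity) r
      exact (ht (Ico_subset_Icc_self hy)).trans_eq e.symm
    have := infDist_le_dist_of_mem (x := ((h s - x : ℝ) : ℂ) * u s) (mem_range_self (f := gam h) t)
    rw [hx, dist_comm, dist_eq_norm, gam_min hh ht', norm_mul, norm_u, mul_one, Complex.norm_real,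
      Real.norm_eq_abs, le_abs] at this
    rcases this with c | c
    · linarith [ht' r]
    · have := h1 t
      have := h1 s
      rcases le_total 0 (h s - x) with d | d
      · nlinarith [cos_le_one (t - s)]
      · nlinarith [neg_one_le_cos (t - s)]

lemma tt_far {n m : ℕ} (hm : m ≠ n) {t : ℝ} (h1 : tt n ≤ t) (h2 : t ≤ 5 / 4 * tt n) :
    bump m t = 0 := by
  have := tt_pos n
  have := tt_pos m
  have := tt_le n
  have := tt_le m
  have key : ∀ i j, i < j → tt j ≤ tt i / 2 := fun i j h => by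
    have : tt j ≤ tt (i + 1) := pow_le_pow_of_le_one (by norm_num) (by norm_num) h
    simpa [tt, pow_succ, div_eq_mul_inv] using this
  refine bump_zero ?_ (abs_le.2 ⟨by linarith [pi_gt_three], by linarith [pi_gt_three]⟩)
  rcases hm.lt_or_gt with h | h
  · have := key _ _ h
    rw [le_abs]; right; linarith
  · have := key _ _ h
    rw [le_abs]; left; linarith

lemma not_open {X : Type*} [TopologicalSpace X] {C S : Set X} {x : X} {y : ℕ → X} (hx : x ∈ C)
    (hx' : x ∈ S) (hy : ∀ n, y n ∈ C) (hy' : ∀ n, y n ∉ S) (h : Tendsto y atTop (𝓝 x)) :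
    ¬ IsOpen ((↑) ⁻¹' S : Set C) := fun ho => by
  have : Tendsto (fun n => (⟨y n, hy n⟩ : C)) atTop (𝓝 ⟨x, hx⟩) := tendsto_subtype_rng.2 h
  obtain ⟨n, hn⟩ := (this.eventually (ho.mem_nhds hx')).exists
  exact hy' n hn

theorem result : ∃ γ : ℝ → ℂ, IsCurve γ ∧
    ¬ IsOpen ((↑) ⁻¹' TanSep γ : Set (TanCut γ)) ∧ ¬ IsOpen ((↑) ⁻¹' Sep γ : Set (Cut γ)) := by
  obtain ⟨e, h, e0, e1, hh, hp, h0, h2, hl, he⟩ := exists_h
  have h1 : ∀ t, 1 ≤ h t := fun t =>
    le_trans (le_add_of_nonneg_right (mul_nonneg (e0 0).le (psi_nonneg _))) (hl 0 t)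
  have hz : ∀ t, (∀ m, bump m t = 0) → h t = 1 := fun t ht => by
    rw [he 0 t fun m _ => ht m, ht, mul_zero, add_zero]
  have z0 : h 0 = 1 := hz _ fun m => bump_zero
    (by rw [zero_sub, abs_neg, abs_of_pos (tt_pos m)]; linarith [tt_pos m])
    (by rw [zero_sub, abs_neg, abs_of_pos (tt_pos m)]; linarith [tt_le m, pi_gt_three])
  have zp : h π = 1 := hz _ fun m => bump_zero
    (by rw [le_abs]; left; linarith [tt_le m, pi_gt_three])
    (abs_le.2 ⟨by linarith [tt_le m, pi_gt_three], by linarith [tt_pos m]⟩)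
  obtain ⟨g0, d0, c0⟩ := cut hh hp h1 (a := 0) (s := 0) one_pos (fun r => by simp [z0, h1])
    fun b hb => ⟨π, by simp [z0, zp]; linarith⟩
  obtain ⟨gp, -, -⟩ := cut hh hp h1 (a := 0) (s := π) one_pos (fun r => by simp [zp, h1])
    fun b hb => ⟨0, by simp [z0, zp]; linarith⟩
  have u0 : u 0 = 1 := by simp [u]
  have up : u π = -1 := Complex.exp_pi_mul_I
  simp only [z0, zp, u0, up, Complex.ofReal_one, Complex.ofReal_zero, one_mul, zero_mul, sub_zero,
    one_smul] at g0 d0 c0 gp
  rw [g0] at c0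
  have s0 : (0 : ℂ) ∈ Sep (gam h) := ⟨1, -1, -1, 1, 1, ⟨⟨0, g0⟩, by simp, one_pos.le, by simp, d0⟩,
    ⟨⟨π, gp⟩, by simp, one_pos.le, by simp, d0⟩, 0, ⟨le_rfl, one_pos.le⟩, by norm_num⟩
  let a : ℕ → ℝ := fun n => e n / eta n
  have a0 : ∀ n, 0 < a n := fun n => div_pos (e0 n) (eta_pos n)
  have a1 : ∀ n, a n ≤ tt n / 2 := fun n => by
    rw [div_le_iff₀ (eta_pos n), mul_comm]; exact e1 n
  have ea : ∀ n, e n = a n * eta n := fun n => (div_mul_cancel₀ _ (eta_pos n).ne').symm
  have ht : ∀ n, h (tt n) = 1 + e n := fun n => by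
    rw [he n _ fun m hm => tt_far hm le_rfl (by linarith [tt_pos n])]
    simp [bump, psi_small]
  have hs : ∀ n r, cos (r - tt n) ≠ 1 → h (tt n) - a n < h r - a n * cos (r - tt n) := by
    intro n r hr
    have p : 0 < (1 - cos (r - tt n)) / eta n :=
      div_pos (sub_pos.2 ((cos_le_one _).lt_of_ne hr)) (eta_pos n)
    have q := mul_lt_mul_of_pos_left (psi_gt p) (e0 n)
    have w : e n * ((1 - cos (r - tt n)) / eta n) = a n * (1 - cos (r - tt n)) := by
      simp only [a]; ring
    have := hl n r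
    unfold bump at this
    rw [ht]
    linarith
  have hm : ∀ n r, h (tt n) - a n ≤ h r - a n * cos (r - tt n) := by
    intro n r
    by_cases hr : cos (r - tt n) = 1
    · have := hl n r
      simp only [bump, hr, sub_self, zero_div, psi_small zero_le_one] at this
      rw [ht, hr]; linarith
    · exact (hs n r hr).le
  have hc : ∀ n, ∀ b < a n, ∃ r, h r - b * cos (r - tt n) < h (tt n) - b := by
    intro n b hb
    have c1 : ContinuousAt (fun x => (1 - cos x) / eta n) 0 := by fun_prop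
    have c2 : ∀ᶠ x in 𝓝 (0 : ℝ), (1 - cos x) / eta n < min 1 ((a n - b) / a n) :=
      c1.eventually_lt continuousAt_const
        (by simpa using div_pos (sub_pos.2 hb) (a0 n))
    have c3 : ∀ᶠ x in 𝓝 (0 : ℝ), x < tt n / 4 := eventually_lt_nhds (by linarith [tt_pos n])
    obtain ⟨x, ⟨x1, x2⟩, x0⟩ := (((c2.and c3).filter_mono nhdsWithin_le_nhds).and
      (self_mem_nhdsWithin (s := Ioi 0))).exists
    have x0 : 0 < x := x0
    refine ⟨tt n + x, ?_⟩
    rw [he n _ fun m hm => tt_far hm (by linarith) (by linarith), ht, bump, add_sub_cancel_left,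
      psi_small (x1.le.trans (min_le_left _ _))]
    have p : 0 < (1 - cos x) / eta n := by
      refine div_pos ?_ (eta_pos n)
      have := cos_bd (x := x) (by
        rw [abs_of_pos x0]; linarith [tt_le n, pi_gt_three])
      nlinarith [sq_pos_of_pos x0]
    have x3 := (lt_div_iff₀ (a0 n)).1 (x1.trans_le (min_le_right _ _))
    have w : cos x = 1 - (1 - cos x) / eta n * eta n := by
      rw [div_mul_cancel₀ _ (eta_pos n).ne']; ring
    generalize (1 - cos x) / eta n = σ at *
    rw [w, ea]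
    nlinarith [mul_lt_mul_of_pos_left x3 (mul_pos p (eta_pos n))]
  have K := fun n => cut hh hp h1 (show a n < 1 by linarith [a1 n, tt_le n]) (hm n) (hc n)
  let y : ℕ → ℂ × ℂ := fun n => (gam h (tt n), (h (tt n) - a n) • -u (tt n))
  have ey : ∀ n, expMap (y n) = a n * u (tt n) := fun n => by
    simp only [expMap, y, (K n).1, Complex.real_smul]; push_cast; ring
  have ns : ∀ n, expMap (y n) ∉ Sep (gam h) := by
    intro n
    rw [ey]
    have A : ∀ p v l, IsSegment (gam h) p v l (a n * u (tt n)) → p = gam h (tt n) := by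
      rintro _ v l ⟨⟨r, rfl⟩, hv, hl0, hq, hd⟩
      rw [(K n).2.1] at hd
      have := gam_lower h (a n) (tt n) r
      rw [← hq, sub_add_cancel_left, norm_neg, norm_smul, hv, mul_one, Real.norm_of_nonneg hl0,
        ← hd] at this
      by_cases hr : cos (r - tt n) = 1
      · obtain ⟨k, hk⟩ := (cos_eq_one_iff _).1 hr
        rw [show r = tt n + k * (2 * π) by linarith]
        exact (gam_per hp).int_mul k _
      · exact absurd (hs n r hr) (not_lt.2 this)
    rintro ⟨p, v, p', v', l, s1, s2, s, hs', hne⟩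
    have e1 := A _ _ _ s1
    have e2 := A _ _ _ s2
    have e3 := s1.2.2.2.1.trans s2.2.2.2.1.symm
    rw [e1, e2, add_right_inj] at e3
    rw [e1, e2, Ne, add_right_inj] at hne
    rcases hs'.2.eq_or_lt with rfl | hlt
    · exact hne e3
    · rw [smul_right_injective ℂ (hs'.1.trans_lt hlt).ne' e3] at hne
      exact hne rfl
  have t0 : Tendsto tt atTop (𝓝 0) := tendsto_pow_atTop_nhds_zero_of_lt_one (by norm_num)
    (by norm_num)
  have ta : Tendsto a atTop (𝓝 0) :=
    squeeze_zero (fun n => (a0 n).le) (fun n => (a1 n).trans (half_le_self (tt_pos n).le)) t0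
  have ty : Tendsto y atTop (𝓝 (1, -1)) := by
    have p := ((gam_deriv hh 0).continuousAt.tendsto.comp t0).prodMk_nhds
      (((hh.continuous.tendsto 0 |>.comp t0).sub ta).smul
        ((u_deriv 0).continuousAt.tendsto.comp t0).neg)
    rw [g0, z0, u0, sub_zero, one_smul] at p
    exact p
  have e0' : expMap (1, -1) = 0 := by simp [expMap]
  refine ⟨gam h, isCurve hh hp h0 h2, not_open c0 ⟨c0, e0' ▸ s0⟩ (fun n => (K n).2.2)
    (fun n k => ns n k.2) ty, not_open ⟨_, c0, e0'⟩ s0 (fun n => ⟨_, (K n).2.2, rfl⟩) ns ?_⟩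
  rw [← e0']
  exact (continuous_fst.add continuous_snd).tendsto _ |>.comp ty

end Pool.Agent.Results.MP_402458_gt.No
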